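import Pool.Agent.Helper403.Pairs
import Pool.Agent.Helper923.HMertens
import Pool.Agent.Helper923.PPS.Smooth

set_option autoImplicit false

open Finset Filter

namespace Pool.Agent.Results.MP_61a569_nt.SmallSummands

open Pool.Agent.Helper403 in
lemma card_pf_le {n : ℕ} (hn : 1 ≤ n) : (n.primeFactors.card : ℝ) * Real.log 2 ≤ Real.log n := by
  have h1 : 2 ^ n.primeFactors.card ≤ ∏ p ∈ n.primeFactors, p :=
    Finset.pow_card_le_prod _ _ _ (fun p hp => (Nat.prime_of_mem_primeFactors hp).two_le)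
  have h2 : 2 ^ n.primeFactors.card ≤ n :=
    h1.trans (Nat.le_of_dvd (by omega) (Nat.prod_primeFactors_dvd n))
  have h3 : ((2 : ℝ) ^ n.primeFactors.card) ≤ n := by exact_mod_cast h2
  have h4 := Real.log_le_log (by positivity) h3
  rwa [Real.log_pow] at h4

/-- `B n ≤ C log y` once `log n ≤ 4 y` -/
lemma B_le : ∃ C : ℝ, 1 ≤ C ∧ ∀ y n : ℕ, 3 ≤ y → 1 ≤ n → Real.log n ≤ 4 * y →
    Pool.Agent.Helper403.B n ≤ C * Real.log y := by
  obtain ⟨C, hC0, hC⟩ := Pool.Agent.Helper923.HMertens.mertens_ratio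
  have hl2 : (0 : ℝ) < Real.log 2 := Real.log_pos (by norm_num)
  have hl2' := Real.log_two_gt_d9
  refine ⟨Real.exp (1 / 2 + C / Real.log 2 + 6) / Real.log 2, ?_, ?_⟩
  · rw [le_div_iff₀ hl2, one_mul]
    have h1 : Real.log 2 ≤ 1 := by have := Real.log_two_lt_d9; linarith
    refine h1.trans (Real.one_le_exp (by positivity))
  intro y n hy hn hlog
  have hy0 : (0 : ℝ) < y := by exact_mod_cast (by omega : 0 < y)
  have h1 : Pool.Agent.Helper403.B n ≤ Real.exp (∑ p ∈ n.primeFactors, 1 / (p : ℝ)) := by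
    unfold Pool.Agent.Helper403.B Pool.Agent.Helper403.Pf
    rw [Real.exp_sum]
    refine Finset.prod_le_prod (fun i _ => by positivity) (fun i _ => ?_)
    have := Real.add_one_le_exp (1 / (i : ℝ))
    linarith
  have h2 : ∑ p ∈ n.primeFactors, 1 / (p : ℝ) ≤
      ∑ p ∈ (Finset.Icc 1 y).filter Nat.Prime, 1 / (p : ℝ) +
        ∑ p ∈ n.primeFactors, 1 / (y : ℝ) := by
    have e1 : ∑ p ∈ n.primeFactors, 1 / (p : ℝ) =
        ∑ p ∈ n.primeFactors.filter (· ≤ y), 1 / (p : ℝ) +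
        ∑ p ∈ n.primeFactors.filter (¬ · ≤ y), 1 / (p : ℝ) :=
      (Finset.sum_filter_add_sum_filter_not _ _ _).symm
    rw [e1]
    refine add_le_add ?_ ?_
    · refine Finset.sum_le_sum_of_subset_of_nonneg ?_ (fun i _ _ => by positivity)
      intro p hp
      rw [Finset.mem_filter] at hp
      rw [Finset.mem_filter, Finset.mem_Icc]
      have := Nat.prime_of_mem_primeFactors hp.1
      exact ⟨⟨this.one_lt.le, hp.2⟩, this⟩
    · refine (Finset.sum_le_sum (g := fun _ => 1 / (y : ℝ)) ?_).trans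
        (Finset.sum_le_sum_of_subset_of_nonneg (Finset.filter_subset _ _)
          (fun i _ _ => by positivity))
      intro p hp
      rw [Finset.mem_filter] at hp
      have h3 : (y : ℝ) ≤ p := by exact_mod_cast (by omega : y ≤ p)
      exact one_div_le_one_div_of_le hy0 h3
  have h3 : ∑ p ∈ n.primeFactors, 1 / (y : ℝ) ≤ 6 := by
    rw [Finset.sum_const, nsmul_eq_mul]
    have := card_pf_le hn
    rw [mul_one_div, div_le_iff₀ hy0]
    have h4 : (n.primeFactors.card : ℝ) * Real.log 2 ≤ 4 * y := this.trans hlog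
    nlinarith
  have h4 : ∑ p ∈ (Finset.Icc 1 y).filter Nat.Prime, 1 / (p : ℝ) ≤
      1 / 2 + (Real.log (Real.log y / Real.log 2) + C / Real.log 2) := by
    have h5 := hC 2 y le_rfl (by omega)
    have h6 := (abs_le.1 h5).2
    have h7 : (Finset.Icc 1 y).filter Nat.Prime = insert 2 ((Finset.Ioc 2 y).filter Nat.Prime) := by
      ext p
      rw [Finset.mem_insert, Finset.mem_filter, Finset.mem_filter, Finset.mem_Icc, Finset.mem_Ioc]
      constructor
      · rintro ⟨⟨h8, h9⟩, h10⟩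
        have := h10.two_le
        rcases Nat.eq_or_lt_of_le this with h11 | h11
        · exact Or.inl h11.symm
        · exact Or.inr ⟨⟨h11, h9⟩, h10⟩
      · rintro (rfl | ⟨⟨h8, h9⟩, h10⟩)
        · exact ⟨⟨by omega, by omega⟩, Nat.prime_two⟩
        · exact ⟨⟨by omega, h9⟩, h10⟩
    rw [h7, Finset.sum_insert (by simp)]
    have h12 : (((2 : ℕ) : ℝ)) = 2 := by norm_num
    rw [h12] at h6 ⊢
    linarith
  have hly : 0 < Real.log y := Real.log_pos (by exact_mod_cast (by omega : 1 < y))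
  calc Pool.Agent.Helper403.B n ≤ Real.exp (∑ p ∈ n.primeFactors, 1 / (p : ℝ)) := h1
    _ ≤ Real.exp ((1 / 2 + C / Real.log 2 + 6) + Real.log (Real.log y / Real.log 2)) :=
        Real.exp_le_exp.2 (by linarith)
    _ = Real.exp (1 / 2 + C / Real.log 2 + 6) / Real.log 2 * Real.log y := by
        rw [Real.exp_add, Real.exp_log (by positivity)]
        ring

open scoped Classical in
/-- the numbers with a large square of a prime -/
lemma squares (X z : ℕ) (hz : 1 ≤ z) :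
    (((Icc 1 X).filter (fun m => ∃ p : ℕ, p.Prime ∧ z < p ∧ p ^ 2 ∣ m)).card : ℝ) ≤ X / z := by
  have h1 : (Icc 1 X).filter (fun m => ∃ p : ℕ, p.Prime ∧ z < p ∧ p ^ 2 ∣ m) ⊆
      (Ioc z (max z X)).biUnion (fun p => (Icc 1 X).filter (fun m => p ^ 2 ∣ m)) := by
    intro m hm
    rw [mem_filter, mem_Icc] at hm
    obtain ⟨⟨h1, h2⟩, p, hp, hzp, hd⟩ := hm
    rw [mem_biUnion]
    have h3 : p ^ 2 ≤ m := Nat.le_of_dvd (by omega) hd
    have h4 : p ≤ X := by nlinarith [hp.one_lt]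
    exact ⟨p, mem_Ioc.2 ⟨hzp, le_max_of_le_right h4⟩, mem_filter.2 ⟨mem_Icc.2 ⟨h1, h2⟩, hd⟩⟩
  have h2 := (card_le_card h1).trans card_biUnion_le
  have h3 : ∀ p ∈ Ioc z (max z X), (((Icc 1 X).filter (fun m => p ^ 2 ∣ m)).card : ℝ) ≤
      X * ((p : ℝ) ^ 2)⁻¹ := by
    intro p hp
    rw [mem_Ioc] at hp
    have h4 : ((Icc 1 X).filter (fun m => p ^ 2 ∣ m)).card = X / p ^ 2 := by
      have := Nat.Ioc_filter_dvd_card_eq_div X (p ^ 2)
      rw [← this]
      rfl
    rw [h4]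
    have h5 : ((X / p ^ 2 : ℕ) : ℝ) ≤ (X : ℝ) / ((p ^ 2 : ℕ) : ℝ) := Nat.cast_div_le
    rw [← div_eq_mul_inv]
    push_cast at h5
    exact h5
  have h4 : (((Icc 1 X).filter (fun m => ∃ p : ℕ, p.Prime ∧ z < p ∧ p ^ 2 ∣ m)).card : ℝ) ≤
      ∑ p ∈ Ioc z (max z X), (((Icc 1 X).filter (fun m => p ^ 2 ∣ m)).card : ℝ) := by
    exact_mod_cast h2
  refine h4.trans ((sum_le_sum h3).trans ?_)
  rw [← mul_sum]
  have h5 : ∑ i ∈ Ioc z (max z X), (((i : ℝ)) ^ 2)⁻¹ ≤ (z : ℝ)⁻¹ - ((max z X : ℕ) : ℝ)⁻¹ :=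
    sum_Ioc_inv_sq_le_sub (by omega) (le_max_left _ _)
  have h6 : (0 : ℝ) ≤ ((max z X : ℕ) : ℝ)⁻¹ := by positivity
  rw [div_eq_mul_inv]
  refine mul_le_mul_of_nonneg_left (by linarith) (by positivity)

lemma sp_eq_self {z m : ℕ} (hm : m ≠ 0) (h : ∀ p : ℕ, p.Prime → p ∣ m → p ≤ z) :
    Pool.Agent.Helper923.PPS.sp z m = m := by
  unfold Pool.Agent.Helper923.PPS.sp
  rw [Finset.filter_true_of_mem (fun p hp => h p (Nat.prime_of_mem_primeFactors hp)
    (Nat.dvd_of_mem_primeFactors hp))]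
  exact Nat.prod_factorization_pow_eq_self hm

open scoped Classical in
/-- the integers `m ≤ X` for which `φ(m) + a c` is `a` times a prime -/
noncomputable def E (a c X : ℕ) : Finset ℕ :=
  (Icc 1 X).filter (fun m => ∃ q : ℕ, q.Prime ∧ a * q = Nat.totient m + a * c)

open scoped Classical in
/-- the count for one cofactor -/
lemma one_cofactor {a c N z X m : ℕ} {D : ℝ} (ha : a = 1 ∨ a = 2) (hc : 2 ≤ c) (hcX : c ≤ X)
    (hN : 1 ≤ N) (hz : z = 4 ^ (16 * N)) (hX : 4 ≤ X)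
    (hD : ∀ n : ℕ, 1 ≤ n → n ≤ X ^ 2 → Pool.Agent.Helper403.B n ≤ D)
    (hm : 1 ≤ m) (hmX : m ≤ X) :
    (((Icc 1 (X / m)).filter (fun p => p.Prime ∧ z < p ∧
      ∃ q : ℕ, q.Prime ∧ a * q = Nat.totient m * (p - 1) + a * c)).card : ℝ) ≤
      (X / m : ℝ) * (45 / 2 * D ^ 4 / N ^ 2) + 1 + 2 * 4 ^ (8 * N) := by
  have ha0 : 0 < a := by rcases ha with rfl | rfl <;> norm_num
  have ha2 : a ≤ 2 := by rcases ha with rfl | rfl <;> norm_num
  have hD1 : 1 ≤ D := (Pool.Agent.Helper403.one_le_B 1).trans (hD 1 le_rfl (by nlinarith))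
  have hN0 : (0 : ℝ) < N := by exact_mod_cast hN
  set F := (Icc 1 (X / m)).filter (fun p => p.Prime ∧ z < p ∧
      ∃ q : ℕ, q.Prime ∧ a * q = Nat.totient m * (p - 1) + a * c) with hF
  have hφ : 1 ≤ Nat.totient m := Nat.totient_pos.2 hm
  have hφX : Nat.totient m ≤ X := (Nat.totient_le m).trans hmX
  by_cases hk : a * c = Nat.totient m
  · -- `q = c p` is not prime
    have : F = ∅ := by
      rw [hF, Finset.filter_eq_empty_iff]
      rintro p - ⟨hp, -, q, hq, hqe⟩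
      have h1 : a * q = a * (c * p) := by
        rw [hqe, hk]
        obtain ⟨r, rfl⟩ : ∃ r, p = r + 1 := ⟨p - 1, by have := hp.one_lt; omega⟩
        rw [Nat.add_sub_cancel, ← mul_assoc, hk]
        ring
      have h2 : q = c * p := Nat.eq_of_mul_eq_mul_left ha0 h1
      rw [h2] at hq
      exact Nat.not_prime_mul (by omega) (by have := hp.one_lt; omega) hq
    rw [this, Finset.card_empty]
    push_cast
    positivity
  · set Φ : ℕ → ℕ × ℕ := fun p => (p, (Nat.totient m * (p - 1) + a * c) / a) with hΦ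
    have hinj : Set.InjOn Φ F := by
      intro x _ y _ h
      exact (Prod.ext_iff.1 h).1
    have hcard : (F.image Φ).card = F.card := Finset.card_image_of_injOn hinj
    have h4 : 4 ^ (2 * N) * 2 ≤ z := by
      rw [hz]
      calc 4 ^ (2 * N) * 2 ≤ 4 ^ (2 * N) * 4 ^ (14 * N) := by
            refine Nat.mul_le_mul_left _ ?_
            calc 2 ≤ 4 ^ 1 := by norm_num
              _ ≤ 4 ^ (14 * N) := Nat.pow_le_pow_right (by norm_num) (by omega)
        _ = 4 ^ (16 * N) := by rw [← pow_add]; congr 1; ring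
    have hmem : ∀ x ∈ F.image Φ, Nat.totient m * x.1 + a * c = a * x.2 + Nat.totient m ∧
        x.1 ≤ X / m ∧ x.1.Prime ∧ x.2.Prime ∧ z < x.1 ∧ 4 ^ (2 * N) < x.2 := by
      intro x hx
      obtain ⟨p, hp, rfl⟩ := Finset.mem_image.1 hx
      rw [hF, Finset.mem_filter, Finset.mem_Icc] at hp
      obtain ⟨⟨hp1, hpX⟩, hpp, hzp, q, hq, hqe⟩ := hp
      have h1 : (Nat.totient m * (p - 1) + a * c) / a = q := by
        rw [← hqe]; exact Nat.mul_div_cancel_left _ ha0
      simp only [hΦ, h1]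
      obtain ⟨r, rfl⟩ : ∃ r, p = r + 1 := ⟨p - 1, by omega⟩
      rw [Nat.add_sub_cancel] at hqe
      refine ⟨by rw [hqe]; ring, hpX, hpp, hq, hzp, ?_⟩
      have h2 : r ≤ Nat.totient m * r := Nat.le_mul_of_pos_left _ hφ
      have h3 : a * q ≤ 2 * q := Nat.mul_le_mul_right _ ha2
      have h5 : 1 * 2 ≤ a * c := Nat.mul_le_mul ha0 hc
      omega
    have hmain := Pool.Agent.Helper403.pairs_sieve (N := N) (a := Nat.totient m) (b := a)
      (k := a * c) (k' := Nat.totient m) (Y := X / m) hN hφ ha0 hk (F.image Φ)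
      (fun x hx => ⟨(hmem x hx).1, (hmem x hx).2.1⟩)
      (fun x hx => ⟨(hmem x hx).2.2.1, (hmem x hx).2.2.2.1,
        by have := (hmem x hx).2.2.2.2.1; omega, (hmem x hx).2.2.2.2.2⟩)
    rw [hcard] at hmain
    refine hmain.trans ?_
    have hg : ((Nat.gcd (Nat.totient m) a : ℕ) : ℝ) ≤ a := by
      exact_mod_cast Nat.gcd_le_right _ ha0
    have haR : (0 : ℝ) < a := by exact_mod_cast ha0
    have hY : ((X / m : ℕ) : ℝ) ≤ (X : ℝ) / m := Nat.cast_div_le
    have e1 : ((X / m : ℕ) : ℝ) * (Nat.gcd (Nat.totient m) a : ℕ) / a ≤ (X : ℝ) / m := by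
      rw [div_le_iff₀ haR]
      exact mul_le_mul hY hg (by positivity) (by positivity)
    have hBa : Pool.Agent.Helper403.B a ≤ 3 / 2 := by
      rcases ha with rfl | rfl
      · have : Pool.Agent.Helper403.B 1 = 1 := by
          simp [Pool.Agent.Helper403.B, Pool.Agent.Helper403.Pf]
        rw [this]; norm_num
      · exact Pool.Agent.Helper403.B_two.le
    have hBφ : Pool.Agent.Helper403.B (Nat.totient m) ≤ D := hD _ hφ (by nlinarith)
    have hBd : Pool.Agent.Helper403.B (Int.natAbs (((a * c : ℕ) : ℤ) - (Nat.totient m : ℕ))) ≤ D := by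
      refine hD _ ?_ ?_
      · have : (((a * c : ℕ) : ℤ) - (Nat.totient m : ℕ)) ≠ 0 := by
          intro h
          exact hk (by exact_mod_cast sub_eq_zero.1 h)
        have := Int.natAbs_pos.2 this
        omega
      · have h6 : a * c ≤ 2 * X := Nat.mul_le_mul ha2 hcX
        have h7 : 2 * X ≤ X ^ 2 := by nlinarith
        have h8 : X ≤ X ^ 2 := by nlinarith
        omega
    have o1 := Pool.Agent.Helper403.one_le_B (Nat.totient m)
    have o2 := Pool.Agent.Helper403.one_le_B a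
    have o3 := Pool.Agent.Helper403.one_le_B
      (Int.natAbs (((a * c : ℕ) : ℤ) - (Nat.totient m : ℕ)))
    have e2 : Pool.Agent.Helper403.B (Nat.totient m) * Pool.Agent.Helper403.B a *
        Pool.Agent.Helper403.B (Int.natAbs (((a * c : ℕ) : ℤ) - (Nat.totient m : ℕ))) ≤
        D * (3 / 2) * D := by
      refine mul_le_mul (mul_le_mul hBφ hBa (by linarith) (by linarith)) hBd (by linarith) ?_
      nlinarith
    have e3 : 10 * (Pool.Agent.Helper403.B (Nat.totient m) * Pool.Agent.Helper403.B a *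
        Pool.Agent.Helper403.B (Int.natAbs (((a * c : ℕ) : ℤ) - (Nat.totient m : ℕ)))) ^ 2 /
        (N : ℝ) ^ 2 ≤ 45 / 2 * D ^ 4 / N ^ 2 := by
      refine div_le_div_of_nonneg_right ?_ (by positivity)
      have := pow_le_pow_left₀ (by positivity) e2 2
      calc _ ≤ 10 * (D * (3 / 2) * D) ^ 2 := by linarith
        _ = 45 / 2 * D ^ 4 := by ring
    have e4 : 0 ≤ 10 * (Pool.Agent.Helper403.B (Nat.totient m) * Pool.Agent.Helper403.B a *
        Pool.Agent.Helper403.B (Int.natAbs (((a * c : ℕ) : ℤ) - (Nat.totient m : ℕ)))) ^ 2 /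
        (N : ℝ) ^ 2 := by positivity
    have e5 := mul_le_mul e1 e3 e4 (by positivity)
    linarith

open scoped Classical in
/-- the decomposition -/
lemma cover {a c N z X w : ℕ} (hz : z = 4 ^ (16 * N)) :
    (E a c X).card ≤ w + ((Icc 1 X).filter (fun m => w < Pool.Agent.Helper923.PPS.sp z m)).card
      + ((Icc 1 X).filter (fun m => ∃ p : ℕ, p.Prime ∧ z < p ∧ p ^ 2 ∣ m)).card
      + ∑ m ∈ Icc 1 (X / z), ((Icc 1 (X / m)).filter (fun p => p.Prime ∧ z < p ∧
        ∃ q : ℕ, q.Prime ∧ a * q = Nat.totient m * (p - 1) + a * c)).card := by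
  set A2 := (Icc 1 X).filter (fun m => w < Pool.Agent.Helper923.PPS.sp z m) with hA2
  set A3 := (Icc 1 X).filter (fun m => ∃ p : ℕ, p.Prime ∧ z < p ∧ p ^ 2 ∣ m) with hA3
  set F : ℕ → Finset ℕ := fun m => (Icc 1 (X / m)).filter (fun p => p.Prime ∧ z < p ∧
        ∃ q : ℕ, q.Prime ∧ a * q = Nat.totient m * (p - 1) + a * c) with hF
  have hz0 : 0 < z := by rw [hz]; positivity
  have hsub : E a c X ⊆ Icc 1 w ∪ A2 ∪ A3 ∪
      (Icc 1 (X / z)).biUnion (fun m => (F m).image (fun p => p * m)) := by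
    intro n hn
    unfold E at hn
    rw [Finset.mem_filter, Finset.mem_Icc] at hn
    obtain ⟨⟨hn1, hnX⟩, q, hq, hqe⟩ := hn
    rw [mem_union, mem_union, mem_union]
    by_cases h1 : n ≤ w
    · exact Or.inl (Or.inl (Or.inl (mem_Icc.2 ⟨hn1, h1⟩)))
    by_cases h2 : w < Pool.Agent.Helper923.PPS.sp z n
    · exact Or.inl (Or.inl (Or.inr (mem_filter.2 ⟨mem_Icc.2 ⟨hn1, hnX⟩, h2⟩)))
    by_cases h3 : ∃ p : ℕ, p.Prime ∧ z < p ∧ p ^ 2 ∣ n
    · exact Or.inl (Or.inr (mem_filter.2 ⟨mem_Icc.2 ⟨hn1, hnX⟩, h3⟩))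
    refine Or.inr ?_
    have h4 : ∃ p : ℕ, p.Prime ∧ p ∣ n ∧ z < p := by
      by_contra hcon
      push Not at hcon
      have := sp_eq_self (z := z) (m := n) (by omega) hcon
      omega
    obtain ⟨p, hp, ⟨m, rfl⟩, hzp⟩ := h4
    have hm1 : 1 ≤ m := by
      rcases Nat.eq_zero_or_pos m with h | h
      · subst h; simp at hn1
      · exact h
    have hpm : ¬ p ∣ m := by
      intro h
      exact h3 ⟨p, hp, hzp, by rw [pow_two]; exact Nat.mul_dvd_mul_left p h⟩
    have hcop : Nat.Coprime p m := (Nat.Prime.coprime_iff_not_dvd hp).2 hpm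
    rw [mem_biUnion]
    refine ⟨m, mem_Icc.2 ⟨hm1, ?_⟩, mem_image.2 ⟨p, mem_filter.2 ⟨mem_Icc.2 ⟨hp.one_lt.le, ?_⟩,
      hp, hzp, q, hq, ?_⟩, rfl⟩⟩
    · rw [Nat.le_div_iff_mul_le hz0]
      calc m * z ≤ m * p := Nat.mul_le_mul_left _ hzp.le
        _ = p * m := by ring
        _ ≤ X := hnX
    · rw [Nat.le_div_iff_mul_le (by omega)]
      exact hnX
    · rw [hqe, Nat.totient_mul hcop, Nat.totient_prime hp]
      ring
  refine (card_le_card hsub).trans ?_
  refine (card_union_le _ _).trans (add_le_add ((card_union_le _ _).trans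
    (add_le_add ((card_union_le _ _).trans (add_le_add ?_ le_rfl)) le_rfl)) ?_)
  · simp
  · refine card_biUnion_le.trans (sum_le_sum (fun m _ => card_image_le))

open scoped Classical in
lemma E_le {a c N z X w : ℕ} {D C₁ : ℝ} (ha : a = 1 ∨ a = 2) (hc : 2 ≤ c) (hcX : c ≤ X)
    (hN : 1 ≤ N) (hz : z = 4 ^ (16 * N)) (hX : 4 ≤ X) (hzX : z ≤ X) (hw : 1 ≤ w)
    (hD : ∀ n : ℕ, 1 ≤ n → n ≤ X ^ 2 → Pool.Agent.Helper403.B n ≤ D)
    (hC₁ : ∀ (z T : ℕ) (v : ℝ), 3000 ≤ z → 0 ≤ v →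
      (((Finset.Icc 1 T).filter
        (fun n => Real.exp v < (Pool.Agent.Helper923.PPS.sp z n : ℝ))).card : ℝ) ≤
      C₁ * T * Real.log z * Real.exp (-v / Real.log z)) :
    ((E a c X).card : ℝ) ≤ w + C₁ * X * Real.log z * Real.exp (-Real.log w / Real.log z) +
      X / z + (X * (45 / 2 * D ^ 4 / N ^ 2) * (1 + Real.log X) +
        X / z * (1 + 2 * 4 ^ (8 * N))) := by
  have hcov := cover (a := a) (c := c) (X := X) (w := w) hz
  have hz0 : 0 < z := by rw [hz]; positivity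
  have hw0 : (0 : ℝ) < w := by exact_mod_cast hw
  have h3000 : 3000 ≤ z := by
    rw [hz]
    calc 3000 ≤ 4 ^ 16 := by norm_num
      _ ≤ 4 ^ (16 * N) := Nat.pow_le_pow_right (by norm_num) (by omega)
  have h2 := hC₁ z X (Real.log w) h3000 (Real.log_natCast_nonneg w)
  rw [Real.exp_log hw0] at h2
  have h2' : (((Icc 1 X).filter (fun m => w < Pool.Agent.Helper923.PPS.sp z m)).card : ℝ) ≤
      C₁ * X * Real.log z * Real.exp (-Real.log w / Real.log z) := by
    refine le_trans ?_ h2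
    have : ((Icc 1 X).filter (fun m => w < Pool.Agent.Helper923.PPS.sp z m)).card ≤
      ((Finset.Icc 1 X).filter
        (fun n => (w : ℝ) < (Pool.Agent.Helper923.PPS.sp z n : ℝ))).card := by
      refine card_le_card (fun m hm => ?_)
      rw [mem_filter] at hm ⊢
      exact ⟨hm.1, by exact_mod_cast hm.2⟩
    exact_mod_cast this
  have h3 := squares X z (by omega)
  have h4 : ∑ m ∈ Icc 1 (X / z), (((Icc 1 (X / m)).filter (fun p => p.Prime ∧ z < p ∧
        ∃ q : ℕ, q.Prime ∧ a * q = Nat.totient m * (p - 1) + a * c)).card : ℝ) ≤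
      X * (45 / 2 * D ^ 4 / N ^ 2) * (1 + Real.log X) +
        X / z * (1 + 2 * 4 ^ (8 * N)) := by
    have hdiv : X / z ≤ X := Nat.div_le_self _ _
    have e1 : ∀ m ∈ Icc 1 (X / z), (((Icc 1 (X / m)).filter (fun p => p.Prime ∧ z < p ∧
        ∃ q : ℕ, q.Prime ∧ a * q = Nat.totient m * (p - 1) + a * c)).card : ℝ) ≤
        X * (45 / 2 * D ^ 4 / N ^ 2) * (1 / (m : ℝ)) + (1 + 2 * 4 ^ (8 * N)) := by
      intro m hm
      rw [mem_Icc] at hm
      have := one_cofactor (m := m) ha hc hcX hN hz hX hD hm.1 (hm.2.trans hdiv)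
      refine this.trans (le_of_eq ?_)
      ring
    refine (sum_le_sum e1).trans ?_
    rw [sum_add_distrib, ← mul_sum, sum_const, nsmul_eq_mul, Nat.card_Icc, Nat.add_sub_cancel]
    have e2 := Pool.Agent.Helper403.sum_inv_le_log (X / z)
    have e3 : Real.log ((X / z : ℕ) : ℝ) ≤ Real.log X := by
      refine Real.log_le_log ?_ (by exact_mod_cast hdiv)
      exact_mod_cast Nat.div_pos hzX hz0
    have e4 : ((X / z : ℕ) : ℝ) ≤ (X : ℝ) / z := Nat.cast_div_le
    refine add_le_add (mul_le_mul_of_nonneg_left (by linarith) (by positivity))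
      (mul_le_mul_of_nonneg_right e4 (by positivity))
  have h5 : ((E a c X).card : ℝ) ≤ (w : ℝ) +
      (((Icc 1 X).filter (fun m => w < Pool.Agent.Helper923.PPS.sp z m)).card : ℝ)
      + (((Icc 1 X).filter (fun m => ∃ p : ℕ, p.Prime ∧ z < p ∧ p ^ 2 ∣ m)).card : ℝ)
      + ∑ m ∈ Icc 1 (X / z), (((Icc 1 (X / m)).filter (fun p => p.Prime ∧ z < p ∧
        ∃ q : ℕ, q.Prime ∧ a * q = Nat.totient m * (p - 1) + a * c)).card : ℝ) := by
    exact_mod_cast hcov
  linarith

lemma eventually_ok : ∃ X₀ : ℕ, ∀ X : ℕ, X₀ ≤ X → 4 ≤ X ∧ 1 ≤ Real.log (Real.log X) ∧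
    300 * Real.log (Real.log X) ^ 2 ≤ Real.log X ∧ 4 ≤ Real.log X := by
  have h1 : ∀ᶠ L : ℝ in atTop, 1 ≤ Real.log L ∧ 300 * Real.log L ^ 2 ≤ L ∧ 4 ≤ L := by
    have e1 := Real.tendsto_log_atTop.eventually_ge_atTop 1
    have e2 := (Real.isLittleO_pow_log_id_atTop (n := 2)).def (show (0 : ℝ) < 1 / 300 by norm_num)
    filter_upwards [e1, e2, eventually_ge_atTop 4] with L h1 h2 h3
    refine ⟨h1, ?_, h3⟩
    rw [Real.norm_of_nonneg (by positivity), id, Real.norm_of_nonneg (by linarith)] at h2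
    linarith
  have h2 := (Real.tendsto_log_atTop.comp (tendsto_natCast_atTop_atTop (R := ℝ))).eventually h1
  obtain ⟨X₀, hX₀⟩ := eventually_atTop.1 h2
  refine ⟨max 4 X₀, fun X hX => ?_⟩
  have := hX₀ X ((le_max_right _ _).trans hX)
  exact ⟨(le_max_left _ _).trans hX, this.1, this.2.1, this.2.2⟩

lemma E_bound : ∃ C : ℝ, 0 < C ∧ ∃ X₀ : ℕ, ∀ X : ℕ, X₀ ≤ X → 4 ≤ X ∧ 4 ≤ Real.log X ∧
    1 ≤ Real.log (Real.log X) ∧ ∀ a c : ℕ, (a = 1 ∨ a = 2) → 2 ≤ c → c ≤ X →
    ((E a c X).card : ℝ) ≤ C * X * Real.log (Real.log X) ^ 6 / Real.log X := by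
  obtain ⟨C₁, hC₁1, hC₁⟩ := Pool.Agent.Helper923.PPS.rankin_count
    Pool.Agent.Helper923.HMertens.mertens_log Pool.Agent.Helper923.HMertens.mertens_ratio
  obtain ⟨C₂, hC₂1, hC₂⟩ := B_le
  obtain ⟨X₀, hX₀⟩ := eventually_ok
  refine ⟨5 + C₁ + 259200000 * C₂ ^ 4, by positivity, X₀, fun X hX => ?_⟩
  obtain ⟨hX4, hll, h300, hL4⟩ := hX₀ X hX
  refine ⟨hX4, hL4, hll, fun a c ha hc hcX => ?_⟩
  set L := Real.log X with hL
  set ll := Real.log L with hllD
  have hXR : (0 : ℝ) < X := by exact_mod_cast (by omega : 0 < X)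
  have hL0 : 0 < L := by linarith
  have hll0 : 0 < ll := by linarith
  set t := L / (300 * ll) with ht
  have htl : t * ll = L / 300 := by rw [ht]; field_simp
  have ht1 : 1 ≤ t := by rw [ht, le_div_iff₀ (by positivity)]; nlinarith
  set N := ⌊t⌋₊ with hN
  have hN1 : 1 ≤ N := Nat.le_floor (by exact_mod_cast ht1)
  have hN1R : (1 : ℝ) ≤ N := by exact_mod_cast hN1
  have hNt : (N : ℝ) ≤ t := Nat.floor_le (by linarith)
  have hNt2 : t / 2 ≤ N := by
    have h1 := Nat.lt_floor_add_one t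
    rw [← hN] at h1
    linarith
  have hl4a := Pool.Agent.Helper403.log_four_ge
  have hl4b := Pool.Agent.Helper403.log_four_le
  set z : ℕ := 4 ^ (16 * N) with hz
  have hzR : (z : ℝ) = (4 : ℝ) ^ (16 * N) := by rw [hz]; push_cast; rfl
  have hz0 : (0 : ℝ) < z := by rw [hzR]; positivity
  have hlogz : Real.log z = 16 * N * Real.log 4 := by
    rw [hzR, Real.log_pow]; push_cast; ring
  have hlogz0 : 0 < Real.log z := by rw [hlogz]; positivity
  have hlz : Real.log z * ll ≤ 0.08 * L := by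
    rw [hlogz]
    have h1 : (16 * N * Real.log 4) * ll ≤ (16 * t * 1.3863) * ll :=
      mul_le_mul_of_nonneg_right (mul_le_mul (by linarith) hl4b (by linarith) (by linarith)) hll0.le
    have h2 : (16 * t * 1.3863) * ll = 16 * 1.3863 * (t * ll) := by ring
    rw [h2, htl] at h1
    linarith
  have hlzL : Real.log z ≤ L := by nlinarith
  have hzX : z ≤ X := by
    have : (z : ℝ) ≤ X := (Real.log_le_log_iff hz0 hXR).1 hlzL
    exact_mod_cast this
  -- the power `4 ^ (8 N)`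
  set u : ℝ := (4 : ℝ) ^ (8 * N) with hu
  have hu0 : 0 < u := by rw [hu]; positivity
  have huz : (z : ℝ) = u * u := by rw [hzR, hu, ← pow_add]; congr 1; ring
  have huL : L ≤ u := by
    have h1 : ll ≤ Real.log u := by
      rw [hu, Real.log_pow]
      push_cast
      have h2 : 8 * (t / 2) * 1.386 ≤ 8 * (N : ℝ) * Real.log 4 :=
        mul_le_mul (by linarith) hl4a (by norm_num) (by linarith)
      have h3 : ll ≤ 5.544 * t := by
        have : ll * ll ≤ 5.544 * (t * ll) := by rw [htl]; nlinarith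
        nlinarith
      linarith
    exact (Real.log_le_log_iff hL0 hu0).1 h1
  have hu1 : 1 ≤ u := by linarith
  -- the square root
  set w := Nat.sqrt X with hw
  have hw1 : 1 ≤ w := by rw [hw, Nat.le_sqrt]; omega
  have hw0 : (0 : ℝ) < w := by exact_mod_cast hw1
  have hwX : (w : ℝ) * w ≤ X := by exact_mod_cast Nat.sqrt_le X
  have hwX2 : (X : ℝ) ≤ 4 * (w * w) := by
    have h1 : X < (w + 1) * (w + 1) := Nat.lt_succ_sqrt X
    have h2 : (w + 1) * (w + 1) ≤ 4 * (w * w) := by nlinarith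
    exact_mod_cast (h1.le.trans h2)
  have hlogw : L / 4 ≤ Real.log w := by
    have h1 := Real.log_le_log hXR hwX2
    rw [Real.log_mul (by norm_num) (by positivity), Real.log_mul hw0.ne' hw0.ne', ← hL] at h1
    linarith
  -- the bound for `B`
  have hD : ∀ n : ℕ, 1 ≤ n → n ≤ X ^ 2 → Pool.Agent.Helper403.B n ≤ C₂ * (2 * ll) := by
    intro n hn1 hn2
    have hy : (L : ℝ) ≤ (⌈L⌉₊ : ℕ) := Nat.le_ceil L
    have hy2 : ((⌈L⌉₊ : ℕ) : ℝ) ≤ 2 * L := by
      have := Nat.ceil_lt_add_one hL0.le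
      linarith
    have hy3 : 3 ≤ ⌈L⌉₊ := by
      have : (3 : ℝ) ≤ (⌈L⌉₊ : ℕ) := by linarith
      exact_mod_cast this
    have hnL : Real.log n ≤ 4 * (⌈L⌉₊ : ℕ) := by
      have h1 : (n : ℝ) ≤ (X : ℝ) ^ 2 := by exact_mod_cast hn2
      have h2 := Real.log_le_log (by exact_mod_cast hn1) h1
      rw [Real.log_pow] at h2
      push_cast at h2
      linarith
    refine (hC₂ ⌈L⌉₊ n hy3 hn1 hnL).trans (mul_le_mul_of_nonneg_left ?_ (by linarith))
    have h3 := Real.log_le_log (by linarith) hy2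
    rw [Real.log_mul (by norm_num) hL0.ne'] at h3
    have := Real.log_two_lt_d9
    linarith
  have hmain := E_le (w := w) ha hc hcX hN1 hz hX4 hzX hw1 hD hC₁
  rw [← hL, ← hu] at hmain
  -- the five terms
  have hexp : L * L ≤ X := by
    have h1 : (X : ℝ) = Real.exp (L / 2) * Real.exp (L / 2) := by
      rw [← Real.exp_add, add_halves, hL, Real.exp_log hXR]
    have h2 : L ≤ Real.exp (L / 2) := by
      have := Real.quadratic_le_exp_of_nonneg (show 0 ≤ L / 2 by linarith)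
      nlinarith [sq_nonneg (L - 2)]
    rw [h1]
    exact mul_le_mul h2 h2 hL0.le (by linarith)
  have T1 : (w : ℝ) ≤ X / L := by
    rw [le_div_iff₀ hL0]
    have h1 : ((w : ℝ) * L) ^ 2 ≤ (X : ℝ) ^ 2 := by
      calc ((w : ℝ) * L) ^ 2 = (w * w) * (L * L) := by ring
        _ ≤ X * X := mul_le_mul hwX hexp (by positivity) hXR.le
        _ = (X : ℝ) ^ 2 := by ring
    exact (pow_le_pow_iff_left₀ (by positivity) hXR.le (by norm_num)).1 h1
  have T2 : C₁ * X * Real.log z * Real.exp (-Real.log w / Real.log z) ≤ C₁ * (X / L) := by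
    have h1 : 2 * ll ≤ Real.log w / Real.log z := by
      rw [le_div_iff₀ hlogz0]
      nlinarith
    have h2 : Real.exp (-Real.log w / Real.log z) ≤ 1 / (L * L) := by
      have h3 : -Real.log w / Real.log z ≤ -(ll + ll) := by rw [neg_div]; linarith
      refine (Real.exp_le_exp.2 h3).trans (le_of_eq ?_)
      rw [Real.exp_neg, Real.exp_add, hllD, Real.exp_log hL0, one_div]
    calc C₁ * X * Real.log z * Real.exp (-Real.log w / Real.log z)
        ≤ C₁ * X * L * (1 / (L * L)) := by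
          refine mul_le_mul (mul_le_mul_of_nonneg_left hlzL (by positivity)) h2
            (Real.exp_pos _).le (by positivity)
      _ = C₁ * (X / L) := by field_simp
  have T3 : (X : ℝ) / z ≤ X / L := by
    refine div_le_div_of_nonneg_left hXR.le hL0 ?_
    rw [huz]; nlinarith
  have T5 : (X : ℝ) / z * (1 + 2 * u) ≤ 3 * (X / L) := by
    have h1 : (X : ℝ) / z * (1 + 2 * u) ≤ X / z * (3 * u) :=
      mul_le_mul_of_nonneg_left (by linarith) (by positivity)
    refine h1.trans ?_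
    have h2 : (X : ℝ) / z * (3 * u) = 3 * (X / u) := by rw [huz]; field_simp
    rw [h2]
    exact mul_le_mul_of_nonneg_left (div_le_div_of_nonneg_left hXR.le hL0 huL) (by norm_num)
  have hll6 : 1 ≤ ll ^ 6 := one_le_pow₀ hll
  have hXL : 0 < X / L := by positivity
  have T4 : X * (45 / 2 * (C₂ * (2 * ll)) ^ 4 / (N : ℝ) ^ 2) * (1 + L) ≤
      259200000 * C₂ ^ 4 * (X * ll ^ 6 / L) := by
    have h1 : L / (600 * ll) ≤ N := by
      refine le_trans (le_of_eq ?_) hNt2
      rw [ht]; field_simp; norm_num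
    have h2 : (L / (600 * ll)) ^ 2 ≤ (N : ℝ) ^ 2 := pow_le_pow_left₀ (by positivity) h1 2
    have h3 : 45 / 2 * (C₂ * (2 * ll)) ^ 4 / (N : ℝ) ^ 2 ≤
        45 / 2 * (C₂ * (2 * ll)) ^ 4 / (L / (600 * ll)) ^ 2 :=
      div_le_div_of_nonneg_left (by positivity) (by positivity) h2
    calc X * (45 / 2 * (C₂ * (2 * ll)) ^ 4 / (N : ℝ) ^ 2) * (1 + L)
        ≤ X * (45 / 2 * (C₂ * (2 * ll)) ^ 4 / (L / (600 * ll)) ^ 2) * (2 * L) := by
          refine mul_le_mul (mul_le_mul_of_nonneg_left h3 hXR.le) (by linarith) (by linarith)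
            (by positivity)
      _ = 259200000 * C₂ ^ 4 * (X * ll ^ 6 / L) := by
          field_simp
          ring
  have hfin : X / L ≤ X * ll ^ 6 / L := by
    refine div_le_div_of_nonneg_right ?_ hL0.le
    nlinarith
  calc ((E a c X).card : ℝ) ≤ _ := hmain
    _ ≤ X / L + C₁ * (X / L) + X / L + (259200000 * C₂ ^ 4 * (X * ll ^ 6 / L) + 3 * (X / L)) := by
        linarith
    _ = (5 + C₁) * (X / L) + 259200000 * C₂ ^ 4 * (X * ll ^ 6 / L) := by ring
    _ ≤ (5 + C₁) * (X * ll ^ 6 / L) + 259200000 * C₂ ^ 4 * (X * ll ^ 6 / L) :=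
        add_le_add (mul_le_mul_of_nonneg_left hfin (by linarith)) le_rfl
    _ = (5 + C₁ + 259200000 * C₂ ^ 4) * X * ll ^ 6 / L := by ring

/-- `q(n,k) = φ(k) + φ(n-k)/2 + 1` -/
def q (n k : ℕ) : ℕ := Nat.totient k + Nat.totient (n - k) / 2 + 1

open scoped Classical in
/-- the number of the `n ≤ X` with a `k`, `1 ≤ k < n - 2`, such that `q(n,k)` is prime and
`k ≤ K` or `n - k ≤ K` -/
noncomputable def exceptions (X K : ℕ) : ℕ :=
  ((Icc 1 X).filter (fun n => ∃ k : ℕ, 1 ≤ k ∧ k + 2 < n ∧ (k ≤ K ∨ n - k ≤ K) ∧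
    (q n k).Prime)).card

lemma exceptions_le {X K : ℕ} {R : ℝ} (hX : 4 ≤ X)
    (hE : ∀ a c : ℕ, (a = 1 ∨ a = 2) → 2 ≤ c → c ≤ X → ((E a c X).card : ℝ) ≤ R) :
    (exceptions X K : ℝ) ≤ 2 * K * R := by
  classical
  have hR : 0 ≤ R := (Nat.cast_nonneg _).trans (hE 1 2 (Or.inl rfl) le_rfl (by omega))
  set K' := min K X with hK'
  have hsub : (Icc 1 X).filter (fun n => ∃ k : ℕ, 1 ≤ k ∧ k + 2 < n ∧ (k ≤ K ∨ n - k ≤ K) ∧
      (q n k).Prime) ⊆
      (Icc 1 K').biUnion (fun k => (E 2 (Nat.totient k + 1) X).image (fun m => m + k)) ∪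
      (Icc 3 K').biUnion (fun j => (E 1 (Nat.totient j / 2 + 1) X).image (fun m => m + j)) := by
    intro n hn
    rw [mem_filter, mem_Icc] at hn
    obtain ⟨⟨hn1, hnX⟩, k, hk1, hkn, hk, hq⟩ := hn
    unfold q at hq
    rw [mem_union, mem_biUnion, mem_biUnion]
    rcases hk with hk | hk
    · refine Or.inl ⟨k, mem_Icc.2 ⟨hk1, by omega⟩, mem_image.2 ⟨n - k, ?_, by omega⟩⟩
      unfold E
      rw [mem_filter, mem_Icc]
      refine ⟨⟨by omega, by omega⟩, _, hq, ?_⟩
      obtain ⟨r, hr⟩ := (Nat.totient_even (n := n - k) (by omega)).two_dvd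
      rw [hr]
      omega
    · refine Or.inr ⟨n - k, mem_Icc.2 ⟨by omega, by omega⟩, mem_image.2 ⟨k, ?_, by omega⟩⟩
      unfold E
      rw [mem_filter, mem_Icc]
      exact ⟨⟨by omega, by omega⟩, _, hq, by ring⟩
  have h1 := (card_le_card hsub).trans (card_union_le _ _)
  have h2 : ((((Icc 1 K').biUnion
      (fun k => (E 2 (Nat.totient k + 1) X).image (fun m => m + k))).card : ℕ) : ℝ) ≤ K * R := by
    have e1 : ((((Icc 1 K').biUnion
      (fun k => (E 2 (Nat.totient k + 1) X).image (fun m => m + k))).card : ℕ) : ℝ) ≤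
      ∑ k ∈ Icc 1 K', ((E 2 (Nat.totient k + 1) X).card : ℝ) := by
      exact_mod_cast card_biUnion_le.trans (sum_le_sum (fun m _ => card_image_le))
    have e2 : ∑ k ∈ Icc 1 K', ((E 2 (Nat.totient k + 1) X).card : ℝ) ≤ ∑ k ∈ Icc 1 K', R := by
      refine sum_le_sum (fun k hk => ?_)
      rw [mem_Icc] at hk
      refine hE _ _ (Or.inr rfl) ?_ ?_
      · have := Nat.totient_pos.2 hk.1
        omega
      · rcases Nat.eq_or_lt_of_le hk.1 with h | h
        · rw [← h, Nat.totient_one]; omega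
        · have := Nat.totient_lt k h
          omega
    rw [sum_const, nsmul_eq_mul, Nat.card_Icc, Nat.add_sub_cancel] at e2
    have e3 : ((K' : ℕ) : ℝ) ≤ K := by exact_mod_cast min_le_left _ _
    exact e1.trans (e2.trans (mul_le_mul_of_nonneg_right e3 hR))
  have h3 : ((((Icc 3 K').biUnion
      (fun j => (E 1 (Nat.totient j / 2 + 1) X).image (fun m => m + j))).card : ℕ) : ℝ) ≤
      K * R := by
    have e1 : ((((Icc 3 K').biUnion
      (fun j => (E 1 (Nat.totient j / 2 + 1) X).image (fun m => m + j))).card : ℕ) : ℝ) ≤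
      ∑ j ∈ Icc 3 K', ((E 1 (Nat.totient j / 2 + 1) X).card : ℝ) := by
      exact_mod_cast card_biUnion_le.trans (sum_le_sum (fun m _ => card_image_le))
    have e2 : ∑ j ∈ Icc 3 K', ((E 1 (Nat.totient j / 2 + 1) X).card : ℝ) ≤
        ∑ j ∈ Icc 3 K', R := by
      refine sum_le_sum (fun j hj => ?_)
      rw [mem_Icc] at hj
      have hlt := Nat.totient_lt j (by omega)
      refine hE _ _ (Or.inl rfl) ?_ ?_
      · obtain ⟨r, hr⟩ := (Nat.totient_even (n := j) (by omega)).two_dvd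
        have := Nat.totient_pos.2 (show 0 < j by omega)
        omega
      · omega
    rw [sum_const, nsmul_eq_mul, Nat.card_Icc] at e2
    have e3 : ((K' + 1 - 3 : ℕ) : ℝ) ≤ K := by
      exact_mod_cast (show K' + 1 - 3 ≤ K by omega)
    exact e1.trans (e2.trans (mul_le_mul_of_nonneg_right e3 hR))
  unfold exceptions
  have h4 : ((((Icc 1 X).filter (fun n => ∃ k : ℕ, 1 ≤ k ∧ k + 2 < n ∧ (k ≤ K ∨ n - k ≤ K) ∧
      (q n k).Prime)).card : ℕ) : ℝ) ≤ ((((Icc 1 K').biUnion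
      (fun k => (E 2 (Nat.totient k + 1) X).image (fun m => m + k))).card : ℕ) : ℝ) +
      ((((Icc 3 K').biUnion
      (fun j => (E 1 (Nat.totient j / 2 + 1) X).image (fun m => m + j))).card : ℕ) : ℝ) := by
    exact_mod_cast h1
  calc _ ≤ _ := h4
    _ ≤ K * R + K * R := add_le_add h2 h3
    _ = 2 * K * R := by ring

/-- There are `C` and `X₀` such that for all `X ≥ X₀` and all `K` the number of the `n ≤ X` with
`q(n,k)` prime for some `k`, `1 ≤ k < n - 2`, with `k ≤ K` or `n - k ≤ K`, is at most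
`C K X (log log X)^6 / log X`. -/
theorem result :
    ∃ C : ℝ, 0 < C ∧ ∃ X₀ : ℕ, ∀ X : ℕ, X₀ ≤ X → ∀ K : ℕ,
      (exceptions X K : ℝ) ≤
        C * K * X * Real.log (Real.log X) ^ 6 / Real.log X := by
  obtain ⟨C, hC0, X₀, hX₀⟩ := E_bound
  refine ⟨2 * C, by positivity, X₀, fun X hX K => ?_⟩
  obtain ⟨h4, -, -, hE⟩ := hX₀ X hX
  refine (exceptions_le h4 hE).trans (le_of_eq ?_)
  ring

open scoped Classical in
/-- For every `ε > 0` and all large `X`, for all but at most `ε X` of the `n ≤ X` every `k`,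
`1 ≤ k < n - 2`, with `q(n,k)` prime has both `k` and `n - k` larger than
`log X / (log log X)^7`. -/
lemma almost_all :
    ∀ ε : ℝ, 0 < ε → ∃ X₀ : ℕ, ∀ X : ℕ, X₀ ≤ X →
      (((Icc 1 X).filter (fun n : ℕ => ¬ ∀ k : ℕ, 1 ≤ k → k + 2 < n → (q n k).Prime →
        Real.log X / Real.log (Real.log X) ^ 7 < k ∧
        Real.log X / Real.log (Real.log X) ^ 7 < ((n - k : ℕ) : ℝ))).card : ℝ) ≤ ε * X := by
  intro ε hε
  obtain ⟨C, hC0, X₂, hone⟩ := result
  obtain ⟨X₃, hX₃⟩ := eventually_ok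
  have hev : ∀ᶠ X : ℕ in atTop, C / ε ≤ Real.log (Real.log X) :=
    (Real.tendsto_log_atTop.comp (Real.tendsto_log_atTop.comp
      (tendsto_natCast_atTop_atTop (R := ℝ)))).eventually_ge_atTop _
  obtain ⟨X₁, hX₁⟩ := eventually_atTop.1 hev
  refine ⟨max (max X₂ X₃) X₁, fun X hX => ?_⟩
  have hXa := (le_max_left _ _).trans ((le_max_left _ _).trans hX)
  have hXc := (le_max_right _ _).trans ((le_max_left _ _).trans hX)
  have hXb := hX₁ X ((le_max_right _ _).trans hX)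
  obtain ⟨h4, hll, -, hL4⟩ := hX₃ X hXc
  have h1 := hone X hXa
  set L := Real.log X with hL
  set ll := Real.log L with hllD
  have hL0 : 0 < L := by linarith
  have hll0 : 0 < ll := by linarith
  set K := ⌊L / ll ^ 7⌋₊ with hK
  have hKle : (K : ℝ) ≤ L / ll ^ 7 := Nat.floor_le (by positivity)
  have hcard : ((Icc 1 X).filter (fun n : ℕ => ¬ ∀ k : ℕ, 1 ≤ k → k + 2 < n → (q n k).Prime →
        L / ll ^ 7 < k ∧ L / ll ^ 7 < ((n - k : ℕ) : ℝ))).card ≤ exceptions X K := by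
    unfold exceptions
    refine card_le_card (fun n hn => ?_)
    rw [mem_filter] at hn ⊢
    refine ⟨hn.1, ?_⟩
    have h1 := hn.2
    push Not at h1
    obtain ⟨k, hk1, hk2, hk3, hk4⟩ := h1
    refine ⟨k, hk1, hk2, ?_, hk3⟩
    by_cases h5 : L / ll ^ 7 < k
    · exact Or.inr (Nat.le_floor (hk4 h5))
    · exact Or.inl (Nat.le_floor (not_lt.1 h5))
  have hXR : (0 : ℝ) < X := by exact_mod_cast (by omega : 0 < X)
  calc _ ≤ (exceptions X K : ℝ) := by exact_mod_cast hcard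
    _ ≤ C * K * X * ll ^ 6 / L := h1 K
    _ ≤ C * (L / ll ^ 7) * X * ll ^ 6 / L := by
        refine div_le_div_of_nonneg_right ?_ hL0.le
        refine mul_le_mul_of_nonneg_right (mul_le_mul_of_nonneg_right
          (mul_le_mul_of_nonneg_left hKle (by positivity)) hXR.le) (by positivity)
    _ = C / ll * X := by field_simp
    _ ≤ ε * X := by
        refine mul_le_mul_of_nonneg_right ?_ hXR.le
        rw [div_le_iff₀ hε] at hXb
        rw [div_le_iff₀ hll0]
        linarith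

end Pool.Agent.Results.MP_61a569_nt.SmallSummands
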